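import Mathlib

/-! The measure of a tail of a sequence of nearly independent events. -/

set_option autoImplicit false

namespace Pool.Agent.TH690.FM

open Finset MeasureTheory Filter Topology

variable {Ω : Type*} [MeasurableSpace Ω] (μ : Measure Ω) [IsFiniteMeasure μ]

theorem bonf {A : ℕ → Set Ω} (hA : ∀ n, MeasurableSet (A n)) : ∀ R : ℕ,
    ∑ i ∈ range R, μ.real (A i) - ∑ i ∈ range R, ∑ j ∈ range i, μ.real (A j ∩ A i) ≤ μ.real (⋃ i ∈ range R, A i) := by
  intro R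
  induction R with
  | zero => simp
  | succ R ih =>
    rw [sum_range_succ, sum_range_succ]
    have hU : MeasurableSet (⋃ i ∈ range R, A i) := Finset.measurableSet_biUnion _ fun i _ => hA i
    have e : (⋃ i ∈ range (R + 1), A i) = (⋃ i ∈ range R, A i) ∪ A R := by
      ext x
      simp only [Set.mem_iUnion, mem_range, exists_prop, Set.mem_union]
      constructor
      · rintro ⟨i, h1, h2⟩
        rcases Nat.lt_succ_iff_lt_or_eq.1 h1 with h | h
        · exact Or.inl ⟨i, h, h2⟩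
        · subst h; exact Or.inr h2
      · rintro (⟨i, h1, h2⟩ | h)
        · exact ⟨i, by omega, h2⟩
        · exact ⟨R, by omega, h⟩
    have h1 := measureReal_union_add_inter (μ := μ) (s := ⋃ i ∈ range R, A i) (hA R)
      (measure_ne_top _ _) (measure_ne_top _ _)
    have h2 : μ.real ((⋃ i ∈ range R, A i) ∩ A R) ≤ ∑ j ∈ range R, μ.real (A j ∩ A R) := by
      rw [Set.iUnion₂_inter]
      exact measureReal_biUnion_finset_le _ _
    rw [e]
    linarith

theorem tail_le {E : ℕ → Set Ω} {J : ℝ} (hJ : 0 ≤ J) {ε : ℝ} (hε : 0 < ε)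
    (h : ∀ᶠ m : ℕ in atTop, 2 ^ m * μ.real (E m) ≤ J + ε) :
    ∀ᶠ M : ℕ in atTop, 2 ^ M * μ.real (⋃ i, E (M + i)) ≤ 2 * (J + ε) := by
  obtain ⟨M0, hM0⟩ := eventually_atTop.1 h
  filter_upwards [eventually_ge_atTop M0] with M hM
  have h1 : ∀ i, μ (E (M + i)) ≤ ENNReal.ofReal ((J + ε) / 2 ^ M * (1 / 2) ^ i) := by
    intro i
    rw [ENNReal.le_ofReal_iff_toReal_le (measure_ne_top _ _) (by positivity)]
    have := hM0 (M + i) (by omega)
    show μ.real (E (M + i)) ≤ _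
    rw [pow_add] at this
    have h2 : (0 : ℝ) < 2 ^ M * 2 ^ i := by positivity
    rw [← le_div_iff₀' h2] at this
    refine this.trans (le_of_eq ?_)
    rw [div_pow, one_pow]
    field_simp
  have hs : Summable (fun i : ℕ => (J + ε) / 2 ^ M * (1 / 2 : ℝ) ^ i) :=
    (summable_geometric_two).mul_left _
  have h2 : μ (⋃ i, E (M + i)) ≤ ENNReal.ofReal (2 * ((J + ε) / 2 ^ M)) := by
    refine (measure_iUnion_le _).trans ((ENNReal.tsum_le_tsum h1).trans ?_)
    rw [← ENNReal.ofReal_tsum_of_nonneg (fun i => by positivity) hs, tsum_mul_left, tsum_geometric_two, mul_comm]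
  have h3 : μ.real (⋃ i, E (M + i)) ≤ 2 * ((J + ε) / 2 ^ M) :=
    (ENNReal.le_ofReal_iff_toReal_le (measure_ne_top _ _) (by positivity)).1 h2
  calc 2 ^ M * μ.real (⋃ i, E (M + i)) ≤ 2 ^ M * (2 * ((J + ε) / 2 ^ M)) := mul_le_mul_of_nonneg_left h3 (by positivity)
    _ = _ := by field_simp

omit [IsFiniteMeasure μ] in
theorem pairs_small {E : ℕ → Set Ω} (hp : ∀ j, 1 ≤ j → Tendsto (fun m : ℕ => 2 ^ m * μ.real (E m ∩ E (m + j))) atTop (𝓝 0))
    (R : ℕ) : Tendsto (fun M : ℕ => 2 ^ M * ∑ i ∈ range R, ∑ j ∈ range i, μ.real (E (M + j) ∩ E (M + i))) atTop (𝓝 0) := by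
  have h0 : (0 : ℝ) = ∑ i ∈ range R, ∑ j ∈ range i, (0 : ℝ) := by simp
  simp only [mul_sum]
  rw [h0]
  apply tendsto_finsetSum
  intro i _
  apply tendsto_finsetSum
  intro j hj
  rw [mem_range] at hj
  have h1 := (hp (i - j) (by omega)).comp (tendsto_add_atTop_nat j)
  have h2 := h1.const_mul (1 / 2 ^ j : ℝ)
  rw [mul_zero] at h2
  refine h2.congr fun M => ?_
  simp only [Function.comp]
  have e : M + j + (i - j) = M + i := by omega
  rw [e, pow_add]
  field_simp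

theorem tail_lim {E : ℕ → Set Ω} (hE : ∀ n, MeasurableSet (E n)) {J : ℝ} (hJ : 0 ≤ J)
    (h : Tendsto (fun m : ℕ => 2 ^ m * μ.real (E m)) atTop (𝓝 J))
    (hp : ∀ j, 1 ≤ j → Tendsto (fun m : ℕ => 2 ^ m * μ.real (E m ∩ E (m + j))) atTop (𝓝 0)) :
    Tendsto (fun M : ℕ => 2 ^ M * μ.real (⋃ i, E (M + i))) atTop (𝓝 (2 * J)) := by
  rw [Metric.tendsto_atTop']
  intro ε hε
  have h1 := tail_le μ (E := E) hJ (ε := ε / 4) (by positivity)
    (by filter_upwards [h.eventually (gt_mem_nhds (show J < J + ε / 4 by linarith))] with m hm using hm.le)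
  -- lower bound
  obtain ⟨R, hR⟩ : ∃ R : ℕ, 2 * J * (1 / 2) ^ R < ε / 2 := by
    have := (tendsto_pow_atTop_nhds_zero_of_lt_one (r := (1 / 2 : ℝ)) (by norm_num) (by norm_num)).const_mul (2 * J)
    rw [mul_zero] at this
    exact (this.eventually (gt_mem_nhds (show (0 : ℝ) < ε / 2 by positivity))).exists
  have h2 : Tendsto (fun M : ℕ => ∑ i ∈ range R, (1 / 2 : ℝ) ^ i * (2 ^ (M + i) * μ.real (E (M + i)))) atTop
      (𝓝 (∑ i ∈ range R, (1 / 2 : ℝ) ^ i * J)) := by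
    apply tendsto_finsetSum
    intro i _
    exact (h.comp (tendsto_add_atTop_nat i)).const_mul _
  have h3 : ∑ i ∈ range R, (1 / 2 : ℝ) ^ i * J = 2 * J - 2 * J * (1 / 2) ^ R := by
    rw [← sum_mul, geom_sum_eq (by norm_num)]
    ring
  rw [h3] at h2
  have h4 := h2.sub (pairs_small μ hp R)
  rw [sub_zero] at h4
  have h5 := h4.eventually (lt_mem_nhds (show 2 * J - ε < 2 * J - 2 * J * (1 / 2) ^ R by linarith))
  obtain ⟨M0, hM0⟩ := eventually_atTop.1 (h1.and h5)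
  refine ⟨M0, fun M hM => ?_⟩
  obtain ⟨h6, h7⟩ := hM0 M hM.le
  have h8 := bonf μ (A := fun i => E (M + i)) (fun n => hE _) R
  have h9 : μ.real (⋃ i ∈ range R, E (M + i)) ≤ μ.real (⋃ i, E (M + i)) :=
    measureReal_mono (Set.iUnion₂_subset fun i _ => Set.subset_iUnion (fun i => E (M + i)) i)
  have h10 : ∑ i ∈ range R, (1 / 2 : ℝ) ^ i * (2 ^ (M + i) * μ.real (E (M + i))) = 2 ^ M * ∑ i ∈ range R, μ.real (E (M + i)) := by
    rw [mul_sum]
    apply sum_congr rfl; intro i _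
    rw [pow_add, div_pow, one_pow]
    field_simp
  rw [h10, ← mul_sub] at h7
  have h11 := mul_le_mul_of_nonneg_left (h8.trans h9) (show (0 : ℝ) ≤ 2 ^ M by positivity)
  rw [Real.dist_eq, abs_lt]
  constructor <;> linarith

theorem two_lim {E : ℕ → Set Ω} {J : ℝ} (hJ : 0 ≤ J)
    (h : Tendsto (fun m : ℕ => 2 ^ m * μ.real (E m)) atTop (𝓝 J))
    (hp : ∀ j, 1 ≤ j → Tendsto (fun m : ℕ => 2 ^ m * μ.real (E m ∩ E (m + j))) atTop (𝓝 0)) :
    Tendsto (fun M : ℕ => 2 ^ M * μ.real {x | ∃ m m' : ℕ, M ≤ m ∧ m < m' ∧ x ∈ E m ∧ x ∈ E m'}) atTop (𝓝 0) := by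
  rw [Metric.tendsto_atTop']
  intro ε hε
  have h1 := tail_le μ (E := E) hJ (ε := 1) one_pos
    (by filter_upwards [h.eventually (gt_mem_nhds (show J < J + 1 by linarith))] with m hm using hm.le)
  obtain ⟨R, hR⟩ : ∃ R : ℕ, 2 * (J + 1) * (1 / 2) ^ R < ε / 2 := by
    have := (tendsto_pow_atTop_nhds_zero_of_lt_one (r := (1 / 2 : ℝ)) (by norm_num) (by norm_num)).const_mul (2 * (J + 1))
    rw [mul_zero] at this
    exact (this.eventually (gt_mem_nhds (show (0 : ℝ) < ε / 2 by positivity))).exists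
  have h2 := (pairs_small μ hp R).eventually (gt_mem_nhds (show (0 : ℝ) < ε / 2 by positivity))
  obtain ⟨M0, hM0⟩ := eventually_atTop.1 (h1.and h2)
  refine ⟨M0, fun M hM => ?_⟩
  obtain ⟨-, h4⟩ := hM0 M hM.le
  obtain ⟨h3, -⟩ := hM0 (M + R) (by omega)
  have hsub : {x | ∃ m m' : ℕ, M ≤ m ∧ m < m' ∧ x ∈ E m ∧ x ∈ E m'} ⊆
      (⋃ i, E (M + R + i)) ∪ ⋃ i ∈ range R, ⋃ j ∈ range i, (E (M + j) ∩ E (M + i)) := by
    rintro x ⟨m, m', h5, h6, h7, h8⟩
    rcases le_or_gt (M + R) m' with h9 | h9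
    · left
      exact Set.mem_iUnion.2 ⟨m' - (M + R), by rw [show M + R + (m' - (M + R)) = m' by omega]; exact h8⟩
    · right
      simp only [Set.mem_iUnion, mem_range]
      exact ⟨m' - M, by omega, m - M, by omega, by rw [show M + (m - M) = m by omega]; exact h7,
        by rw [show M + (m' - M) = m' by omega]; exact h8⟩
  have h5 : μ.real {x | ∃ m m' : ℕ, M ≤ m ∧ m < m' ∧ x ∈ E m ∧ x ∈ E m'} ≤
      μ.real (⋃ i, E (M + R + i)) + ∑ i ∈ range R, ∑ j ∈ range i, μ.real (E (M + j) ∩ E (M + i)) := by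
    refine (measureReal_mono hsub).trans ((measureReal_union_le _ _).trans (add_le_add le_rfl ?_))
    exact (measureReal_biUnion_finset_le _ _).trans (sum_le_sum fun i _ => measureReal_biUnion_finset_le _ _)
  have h6 : 2 ^ M * μ.real (⋃ i, E (M + R + i)) ≤ 2 * (J + 1) * (1 / 2) ^ R := by
    rw [pow_add] at h3
    have : (2 : ℝ) ^ M * μ.real (⋃ i, E (M + R + i)) * 2 ^ R ≤ 2 * (J + 1) := by
      calc _ = 2 ^ M * 2 ^ R * μ.real (⋃ i, E (M + R + i)) := by ring
        _ ≤ _ := h3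
    rw [← le_div_iff₀ (by positivity)] at this
    refine this.trans (le_of_eq ?_)
    rw [div_pow, one_pow]; ring
  have h7 := mul_le_mul_of_nonneg_left h5 (show (0 : ℝ) ≤ 2 ^ M by positivity)
  rw [Real.dist_eq, sub_zero, abs_of_nonneg (by positivity)]
  rw [mul_add] at h7
  linarith

end Pool.Agent.TH690.FM
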