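import Pool.Agent.H357R2.SI.Common
import Pool.Agent.Helper923.PPS.BT

/-! The amplitudes with a prime value, for a fixed base. -/

set_option autoImplicit false

namespace Pool.Agent.TH690.FM

open Finset MeasureTheory Filter Topology

/-- the amplitudes with a prime value -/
def PA (X : ℝ) : Set ℝ := {a | 0 ≤ a ∧ (⌊a * X⌋₊ + 1).Prime}

theorem fl_iff {X : ℝ} (hX : 0 < X) {n : ℕ} (hn : 1 ≤ n) {a : ℝ} (ha : 0 ≤ a) :
    ⌊a * X⌋₊ + 1 = n ↔ ((n - 1 : ℕ) : ℝ) / X ≤ a ∧ a < n / X := by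
  rw [div_le_iff₀ hX, lt_div_iff₀ hX]
  obtain ⟨m, rfl⟩ : ∃ m, n = m + 1 := ⟨n - 1, by omega⟩
  rw [Nat.add_sub_cancel, Nat.add_right_cancel_iff, Nat.floor_eq_iff (by positivity)]
  push_cast
  rfl

theorem PA_inter {X : ℝ} (hX : 0 < X) (A B : ℕ) : PA X ∩ Set.Ico ((A : ℝ) / X) (B / X) =
    ⋃ n ∈ (Ioc A B).filter Nat.Prime, Set.Ico (((n - 1 : ℕ) : ℝ) / X) (n / X) := by
  ext a
  simp only [Set.mem_inter_iff, Set.mem_iUnion, mem_filter, mem_Ioc, exists_prop, PA, Set.mem_ofPred_eq, Set.mem_Ico]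
  constructor
  · rintro ⟨⟨h0, hp⟩, h1, h2⟩
    refine ⟨⌊a * X⌋₊ + 1, ⟨⟨?_, ?_⟩, hp⟩, (fl_iff hX (by omega) h0).1 rfl⟩
    · rw [div_le_iff₀ hX] at h1
      have := Nat.le_floor h1
      omega
    · rw [lt_div_iff₀ hX] at h2
      have := (Nat.floor_lt (by positivity)).2 h2
      omega
  · rintro ⟨n, ⟨⟨h1, h2⟩, hp⟩, h3, h4⟩
    have h0 : 0 ≤ a := le_trans (by positivity) h3
    refine ⟨⟨h0, ?_⟩, le_trans ?_ h3, lt_of_lt_of_le h4 ?_⟩
    · rw [(fl_iff hX (by omega) h0).2 ⟨h3, h4⟩]; exact hp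
    · exact div_le_div_of_nonneg_right (by exact_mod_cast (by omega : A ≤ n - 1)) hX.le
    · exact div_le_div_of_nonneg_right (by exact_mod_cast h2) hX.le

theorem PA_meas {X : ℝ} (hX : 0 < X) : MeasurableSet (PA X) := by
  have h : PA X = ⋃ n ∈ {n : ℕ | n.Prime}, Set.Ico (((n - 1 : ℕ) : ℝ) / X) (n / X) := by
    ext a
    simp only [Set.mem_iUnion, exists_prop, PA, Set.mem_ofPred_eq, Set.mem_Ico]
    constructor
    · rintro ⟨h0, hp⟩
      exact ⟨_, hp, (fl_iff hX (by omega) h0).1 rfl⟩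
    · rintro ⟨n, hp, h3, h4⟩
      have h0 : 0 ≤ a := le_trans (by positivity) h3
      refine ⟨h0, ?_⟩
      rw [(fl_iff hX hp.one_le h0).2 ⟨h3, h4⟩]
      exact hp
  rw [h]
  exact MeasurableSet.biUnion (Set.to_countable _) fun n _ => measurableSet_Ico

theorem vol_PA {X : ℝ} (hX : 0 < X) (A B : ℕ) : volume.real (PA X ∩ Set.Ico ((A : ℝ) / X) (B / X)) =
    ((Ioc A B).filter Nat.Prime).card / X := by
  rw [PA_inter hX, measureReal_biUnion_finset (h := fun n _ => (measure_Ico_lt_top).ne)]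
  · rw [div_eq_mul_one_div, ← nsmul_eq_mul, ← sum_const]
    apply sum_congr rfl; intro n hn
    rw [mem_filter] at hn
    have h1 : ((n - 1 : ℕ) : ℝ) = n - 1 := by rw [Nat.cast_sub hn.2.one_le]; simp
    rw [h1, Real.volume_real_Ico_of_le (div_le_div_of_nonneg_right (by linarith) hX.le)]
    ring
  · intro n hn m hm hnm
    rw [mem_coe, mem_filter] at hn hm
    show Disjoint (Set.Ico (((n - 1 : ℕ) : ℝ) / X) (n / X)) (Set.Ico (((m - 1 : ℕ) : ℝ) / X) (m / X))
    rw [Set.disjoint_left]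
    intro b hb hb'
    have h0 : 0 ≤ b := le_trans (by positivity) hb.1
    have e1 := (fl_iff hX hn.2.one_le h0).2 hb
    have e2 := (fl_iff hX hm.2.one_le h0).2 hb'
    exact hnm (e1.symm.trans e2)
  · intro n _; exact measurableSet_Ico

theorem cnt_PA {X : ℝ} (hX : 0 < X) {A B : ℕ} (h : A ≤ B) : volume.real (PA X ∩ Set.Ico ((A : ℝ) / X) (B / X)) =
    ((Nat.primeCounting B : ℝ) - Nat.primeCounting A) / X := by
  rw [vol_PA hX, ← Pool.Agent.H357R2.SI.pc_eq_sub h]
  rfl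

theorem fin_PA {X a b : ℝ} {S : Set ℝ} (h : S ⊆ Set.Icc a b) : volume (PA X ∩ S) ≠ ⊤ :=
  ((measure_mono (Set.inter_subset_right.trans h)).trans_lt measure_Icc_lt_top).ne

/-- bounds by prime counts -/
theorem bounds_PA {X : ℝ} (hX : 0 < X) {u v : ℝ} (hu : 0 < u) (huv : u ≤ v) :
    ((Nat.primeCounting ⌊v * X⌋₊ : ℝ) - Nat.primeCounting ⌊u * X⌋₊ - 1) / X ≤ volume.real (PA X ∩ Set.Ioc u v) ∧
    volume.real (PA X ∩ Set.Ioc u v) ≤ ((Nat.primeCounting ⌊v * X⌋₊ : ℝ) - Nat.primeCounting ⌊u * X⌋₊ + 1) / X := by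
  set A := ⌊u * X⌋₊ with hA
  set B := ⌊v * X⌋₊ with hB
  have hAB : A ≤ B := Nat.floor_le_floor (mul_le_mul_of_nonneg_right huv hX.le)
  have hstep : ∀ n : ℕ, (Nat.primeCounting (n + 1) : ℝ) ≤ Nat.primeCounting n + 1 := by
    intro n
    rw [Nat.primeCounting, Nat.primeCounting, Nat.primeCounting', Nat.count_succ]
    push_cast
    split_ifs <;> simp
  have a1 : (A : ℝ) / X ≤ u := by rw [div_le_iff₀ hX]; exact Nat.floor_le (by positivity)
  have a2 : u < ((A + 1 : ℕ) : ℝ) / X := by rw [lt_div_iff₀ hX]; push_cast; exact Nat.lt_floor_add_one _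
  have b1 : (B : ℝ) / X ≤ v := by rw [div_le_iff₀ hX]; exact Nat.floor_le (mul_nonneg (by linarith) hX.le)
  have b2 : v < ((B + 1 : ℕ) : ℝ) / X := by rw [lt_div_iff₀ hX]; push_cast; exact Nat.lt_floor_add_one _
  constructor
  · rcases hAB.eq_or_lt with h | h
    · rw [← h]
      refine le_trans ?_ measureReal_nonneg
      apply div_nonpos_of_nonpos_of_nonneg _ hX.le
      linarith
    · have h1 := cnt_PA hX (A := A + 1) (B := B) h
      have hsub : Set.Ico (((A + 1 : ℕ) : ℝ) / X) (B / X) ⊆ Set.Ioc u v := fun x hx => ⟨lt_of_lt_of_le a2 hx.1, hx.2.le.trans b1⟩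
      have h2 := measureReal_mono (μ := volume) (Set.inter_subset_inter_right (PA X) hsub) (fin_PA Set.Ioc_subset_Icc_self)
      rw [h1] at h2
      refine le_trans ?_ h2
      apply div_le_div_of_nonneg_right _ hX.le
      linarith [hstep A]
  · have h1 := cnt_PA hX (A := A) (B := B + 1) (by omega)
    have hsub : Set.Ioc u v ⊆ Set.Ico ((A : ℝ) / X) (((B + 1 : ℕ) : ℝ) / X) := fun x hx => ⟨a1.trans hx.1.le, lt_of_le_of_lt hx.2 b2⟩
    have h2 := measureReal_mono (μ := volume) (Set.inter_subset_inter_right (PA X) hsub) (fin_PA Set.Ico_subset_Icc_self)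
    rw [h1] at h2
    refine h2.trans ?_
    apply div_le_div_of_nonneg_right _ hX.le
    linarith [hstep B]

theorem pi_lim {v : ℝ} (hv : 0 < v) : Tendsto (fun X : ℝ => Real.log X * ((Nat.primeCounting ⌊v * X⌋₊ : ℝ) / X)) atTop (𝓝 v) := by
  have h1 := Pool.Agent.Helper923.PNT.pi_tendsto.comp (tendsto_id.const_mul_atTop hv)
  have h2 : Tendsto (fun X : ℝ => Real.log X / Real.log (v * X)) atTop (𝓝 1) := by
    have h3 : Tendsto (fun X : ℝ => Real.log v / Real.log (v * X)) atTop (𝓝 0) :=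
      (Real.tendsto_log_atTop.comp (tendsto_id.const_mul_atTop hv)).const_div_atTop _
    have h4 := (tendsto_const_nhds (x := (1 : ℝ))).sub h3
    rw [sub_zero] at h4
    refine h4.congr' ?_
    filter_upwards [eventually_gt_atTop (max 1 (1 / v))] with X hX
    have hX1 : 1 < X := (le_max_left _ _).trans_lt hX
    have hX2 : 1 < v * X := by
      have := (le_max_right _ _).trans_lt hX
      rw [div_lt_iff₀ hv] at this
      linarith
    have hne : Real.log (v * X) ≠ 0 := (Real.log_pos hX2).ne'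
    rw [eq_div_iff hne, sub_mul, div_mul_cancel₀ _ hne, one_mul, Real.log_mul hv.ne' (by linarith)]
    ring
  have h5 := (h1.mul h2).const_mul v
  rw [mul_one, mul_one] at h5
  refine h5.congr' ?_
  filter_upwards [eventually_gt_atTop (max 1 (1 / v))] with X hX
  have hX1 : 1 < X := (le_max_left _ _).trans_lt hX
  have hX2 : 1 < v * X := by
    have := (le_max_right _ _).trans_lt hX
    rw [div_lt_iff₀ hv] at this
    linarith
  have hne : Real.log (v * X) ≠ 0 := (Real.log_pos hX2).ne'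
  simp only [Function.comp, id]
  field_simp

theorem lim_PA {u v : ℝ} (hu : 0 < u) (huv : u ≤ v) :
    Tendsto (fun X : ℝ => Real.log X * volume.real (PA X ∩ Set.Ioc u v)) atTop (𝓝 (v - u)) := by
  have h0 : Tendsto (fun X : ℝ => Real.log X / X) atTop (𝓝 0) := Real.isLittleO_log_id_atTop.tendsto_div_nhds_zero
  have h1 := (pi_lim (lt_of_lt_of_le hu huv)).sub (pi_lim hu)
  have hl := h1.sub h0
  have hr := h1.add h0
  rw [sub_zero] at hl
  rw [add_zero] at hr
  refine tendsto_of_tendsto_of_tendsto_of_le_of_le' hl hr ?_ ?_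
  · filter_upwards [eventually_gt_atTop 1] with X hX
    have h2 := (bounds_PA (X := X) (by linarith) hu huv).1
    have h3 := mul_le_mul_of_nonneg_left h2 (Real.log_pos hX).le
    refine le_trans (le_of_eq ?_) h3
    ring
  · filter_upwards [eventually_gt_atTop 1] with X hX
    have h2 := (bounds_PA (X := X) (by linarith) hu huv).2
    have h3 := mul_le_mul_of_nonneg_left h2 (Real.log_pos hX).le
    refine le_trans h3 (le_of_eq ?_)
    ring

theorem one_PA {C : ℝ} (hC : 1 ≤ C) (hBT : ∀ (a q N : ℕ), 2 ≤ N → (q = 1 ∨ q.Prime) →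
    (((Finset.range N).filter (fun k => (a + k * q).Prime)).card : ℝ) ≤ C * N / Real.log N)
    {X : ℝ} (hX : 2 ≤ X) {J : ℕ} (hJ : 2 ≤ J) (p : ℕ) :
    volume.real (PA (X ^ J) ∩ Set.Ico (((p - 1 : ℕ) : ℝ) / X) (p / X)) ≤ 3 * C / (X * Real.log X) := by
  have hX0 : 0 < X := by linarith
  have hXJ : 0 < X ^ J := by positivity
  have hlogX : 0 < Real.log X := Real.log_pos (by linarith)
  obtain ⟨j, rfl⟩ : ∃ j, J = j + 1 := ⟨J - 1, by omega⟩
  have hj : 1 ≤ j := by omega
  have hXj : X ≤ X ^ j := by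
    calc X = X ^ 1 := (pow_one X).symm
      _ ≤ X ^ j := pow_le_pow_right₀ (by linarith) hj
  set Y := X ^ j with hY
  have hY2 : 2 ≤ Y := hX.trans hXj
  set A := ⌊((p - 1 : ℕ) : ℝ) * Y⌋₊ with hA
  set N := ⌊Y⌋₊ + 2 with hN
  have hNY : (N : ℝ) ≤ 3 * Y / 1 ∧ Y ≤ N := by
    have h1 := Nat.floor_le (show 0 ≤ Y by linarith)
    have h2 := Nat.lt_floor_add_one Y
    rw [hN]; push_cast
    constructor <;> linarith
  have hN3 : (N : ℝ) ≤ 2 * Y := by
    have h1 := Nat.floor_le (show 0 ≤ Y by linarith)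
    rw [hN]; push_cast; linarith
  have hsub : Set.Ico (((p - 1 : ℕ) : ℝ) / X) (p / X) ⊆ Set.Ico ((A : ℝ) / X ^ (j + 1)) (((A + N : ℕ) : ℝ) / X ^ (j + 1)) := by
    intro a ha
    have e : X ^ (j + 1) = X * Y := by rw [pow_succ]; ring
    obtain ⟨h1, h2⟩ := ha
    rw [div_le_iff₀ hX0] at h1
    rw [lt_div_iff₀ hX0] at h2
    have hYp : 0 < Y := by linarith
    have hAle : (A : ℝ) ≤ ((p - 1 : ℕ) : ℝ) * Y := Nat.floor_le (by positivity)
    have hAlt : ((p - 1 : ℕ) : ℝ) * Y < A + 1 := Nat.lt_floor_add_one _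
    have hNlt := Nat.lt_floor_add_one Y
    have hp1 : (p : ℝ) ≤ ((p - 1 : ℕ) : ℝ) + 1 := by
      have : p ≤ (p - 1) + 1 := by omega
      exact_mod_cast this
    constructor
    · rw [div_le_iff₀ hXJ, e]
      calc (A : ℝ) ≤ ((p - 1 : ℕ) : ℝ) * Y := hAle
        _ ≤ (a * X) * Y := mul_le_mul_of_nonneg_right h1 hYp.le
        _ = _ := by ring
    · rw [lt_div_iff₀ hXJ, e]
      calc a * (X * Y) = (a * X) * Y := by ring
        _ < p * Y := mul_lt_mul_of_pos_right h2 hYp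
        _ ≤ (((p - 1 : ℕ) : ℝ) + 1) * Y := mul_le_mul_of_nonneg_right hp1 hYp.le
        _ ≤ _ := by rw [hN]; push_cast; nlinarith
  have h1 := measureReal_mono (μ := volume) (Set.inter_subset_inter_right (PA (X ^ (j + 1))) hsub) (fin_PA Set.Ico_subset_Icc_self)
  rw [vol_PA hXJ] at h1
  refine h1.trans ?_
  have h2 := hBT (A + 1) 1 N (by omega) (Or.inl rfl)
  have h3 : ((Ioc A (A + N)).filter Nat.Prime).card = ((Finset.range N).filter (fun k => (A + 1 + k * 1).Prime)).card := by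
    symm
    apply card_bij (fun k _ => A + 1 + k * 1)
    · intro a ha
      rw [mem_filter, mem_range] at ha
      rw [mem_filter, mem_Ioc]
      exact ⟨by omega, ha.2⟩
    · intro a _ b _ h; omega
    · intro b hb
      rw [mem_filter, mem_Ioc] at hb
      refine ⟨b - (A + 1), ?_, by omega⟩
      rw [mem_filter, mem_range]
      refine ⟨by omega, ?_⟩
      have : A + 1 + (b - (A + 1)) * 1 = b := by omega
      rw [this]; exact hb.2
  rw [h3]
  have hlog : Real.log X ≤ Real.log N := Real.log_le_log hX0 (hXj.trans hNY.2)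
  have h4 : C * N / Real.log N ≤ C * (2 * Y) / Real.log X := by
    calc C * N / Real.log N ≤ C * N / Real.log X := div_le_div_of_nonneg_left (by positivity) hlogX hlog
      _ ≤ _ := div_le_div_of_nonneg_right (mul_le_mul_of_nonneg_left hN3 (by linarith)) hlogX.le
  calc _ ≤ C * (2 * Y) / Real.log X / X ^ (j + 1) := div_le_div_of_nonneg_right (h2.trans h4) hXJ.le
    _ = 2 * C / (X * Real.log X) := by
        rw [pow_succ, ← hY]
        have : Y ≠ 0 := by linarith
        field_simp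
    _ ≤ 3 * C / (X * Real.log X) := by
        apply div_le_div_of_nonneg_right _ (by positivity)
        linarith

theorem pair_PA {u v : ℝ} (hu : 0 < u) (huv : u ≤ v) {J : ℕ} (hJ : 2 ≤ J) :
    Tendsto (fun X : ℝ => Real.log X * volume.real (PA X ∩ PA (X ^ J) ∩ Set.Ioc u v)) atTop (𝓝 0) := by
  obtain ⟨C, hC, hBT⟩ := Pool.Agent.Helper923.PPS.brun_titchmarsh
  have hlim := lim_PA (u := u / 2) (v := v + 1) (by linarith) (by linarith)
  set I := v + 1 - u / 2 with hI
  have hub := hlim.eventually (gt_mem_nhds (show I < I + 1 by linarith))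
  have hI0 : 0 ≤ I := by linarith
  have hz : Tendsto (fun X : ℝ => 3 * C * (I + 1) / Real.log X) atTop (𝓝 0) := Real.tendsto_log_atTop.const_div_atTop _
  refine squeeze_zero' ?_ ?_ hz
  · filter_upwards [eventually_gt_atTop 1] with X hX
    have := (Real.log_pos hX).le
    positivity
  filter_upwards [hub, eventually_gt_atTop 2, eventually_gt_atTop (2 / u)] with X h1 h2 h3
  have hX0 : 0 < X := by linarith
  have hlogX : 0 < Real.log X := Real.log_pos (by linarith)
  set A := ⌊u * X⌋₊ with hA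
  set B := ⌊v * X⌋₊ with hB
  have a1 : (A : ℝ) / X ≤ u := by rw [div_le_iff₀ hX0]; exact Nat.floor_le (by positivity)
  have a2 : u < (A + 1) / X := by rw [lt_div_iff₀ hX0]; exact Nat.lt_floor_add_one _
  have b1 : (B : ℝ) / X ≤ v := by rw [div_le_iff₀ hX0]; exact Nat.floor_le (mul_nonneg (by linarith) hX0.le)
  have b2 : v < ((B + 1 : ℕ) : ℝ) / X := by rw [lt_div_iff₀ hX0]; push_cast; exact Nat.lt_floor_add_one _
  have hcov : PA X ∩ PA (X ^ J) ∩ Set.Ioc u v ⊆ ⋃ p ∈ (Ioc A (B + 1)).filter Nat.Prime,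
      (PA (X ^ J) ∩ Set.Ico (((p - 1 : ℕ) : ℝ) / X) (p / X)) := by
    rintro b ⟨⟨hb1, hb2⟩, hb3⟩
    have hb4 : b ∈ PA X ∩ Set.Ico ((A : ℝ) / X) (((B + 1 : ℕ) : ℝ) / X) := ⟨hb1, a1.trans hb3.1.le, lt_of_le_of_lt hb3.2 b2⟩
    rw [PA_inter hX0] at hb4
    simp only [Set.mem_iUnion] at hb4 ⊢
    obtain ⟨p, hp, hb5⟩ := hb4
    exact ⟨p, hp, hb2, hb5⟩
  have hfin : volume (⋃ p ∈ (Ioc A (B + 1)).filter Nat.Prime, (PA (X ^ J) ∩ Set.Ico (((p - 1 : ℕ) : ℝ) / X) (p / X))) ≠ ⊤ := by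
    refine ((measure_biUnion_finset_le _ _).trans_lt (ENNReal.sum_lt_top.2 fun p _ => ?_)).ne
    exact (measure_mono Set.inter_subset_right).trans_lt measure_Ico_lt_top
  have h5 : volume.real (PA X ∩ PA (X ^ J) ∩ Set.Ioc u v) ≤
      ((Ioc A (B + 1)).filter Nat.Prime).card * (3 * C / (X * Real.log X)) := by
    refine (measureReal_mono hcov hfin).trans ((measureReal_biUnion_finset_le _ _).trans ?_)
    rw [← nsmul_eq_mul]
    exact sum_le_card_nsmul _ _ _ fun p _ => one_PA hC hBT h2.le hJ p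
  have h6 : (((Ioc A (B + 1)).filter Nat.Prime).card : ℝ) / X ≤ (I + 1) / Real.log X := by
    rw [← vol_PA hX0, le_div_iff₀ hlogX, mul_comm]
    refine le_trans (mul_le_mul_of_nonneg_left ?_ hlogX.le) h1.le
    apply measureReal_mono (Set.inter_subset_inter_right _ _) (fin_PA Set.Ioc_subset_Icc_self)
    intro x hx
    rw [div_lt_iff₀ hu] at h3
    have h7 : 1 / X < u / 2 := by rw [div_lt_iff₀ hX0]; linarith
    have h8 : ((A : ℝ) + 1) / X = A / X + 1 / X := by ring
    have h9 : (((B + 1 : ℕ) : ℝ)) / X = B / X + 1 / X := by push_cast; ring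
    have h10 : 1 / X ≤ 1 := by rw [div_le_one hX0]; linarith
    have hx1 := hx.1
    have hx2 := hx.2
    rw [h9] at hx2
    exact ⟨by linarith, by linarith⟩
  calc Real.log X * volume.real (PA X ∩ PA (X ^ J) ∩ Set.Ioc u v)
      ≤ Real.log X * (((Ioc A (B + 1)).filter Nat.Prime).card * (3 * C / (X * Real.log X))) :=
        mul_le_mul_of_nonneg_left h5 hlogX.le
    _ = 3 * C * (((Ioc A (B + 1)).filter Nat.Prime).card / X) := by field_simp
    _ ≤ 3 * C * ((I + 1) / Real.log X) := mul_le_mul_of_nonneg_left h6 (by linarith)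
    _ = _ := by ring

end Pool.Agent.TH690.FM
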