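import Pool.Agent.TH690.FM.B
import Pool.Agent.Helper923.PPS.BT

/-! The limit of the measure, and two powers at once. -/

set_option autoImplicit false

namespace Pool.Agent.TH690.FM

open Finset MeasureTheory Filter Topology

theorem fin_int (T : Set ℝ) {s t : ℝ} : volume (T ∩ Set.Ioc s t) ≠ ⊤ :=
  ((measure_mono Set.inter_subset_right).trans_lt (measure_Ioc_lt_top)).ne

theorem vol_split (k : ℕ) (hk : k ≠ 0) {a b c : ℝ} (hab : a ≤ b) (hbc : b ≤ c) :
    volume.real (PS k ∩ Set.Ioc a c) = volume.real (PS k ∩ Set.Ioc a b) + volume.real (PS k ∩ Set.Ioc b c) := by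
  rw [← Set.Ioc_union_Ioc_eq_Ioc hab hbc, Set.inter_union_distrib_left]
  apply measureReal_union
  · rw [Set.disjoint_left]
    intro x hx hx'
    exact absurd hx.2.2 (not_le.2 hx'.2.1)
  · exact (PS_meas hk).inter measurableSet_Ioc
  · exact fin_int _
  · exact fin_int _

/-- the reciprocal of the logarithm -/
noncomputable def gg (x : ℝ) : ℝ := 1 / Real.log x

theorem gg_anti {x y : ℝ} (hx : 1 < x) (hxy : x ≤ y) : gg y ≤ gg x :=
  one_div_le_one_div_of_le (Real.log_pos hx) (Real.log_le_log (by linarith) hxy)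

theorem gg_int {x y : ℝ} (hx : 1 < x) (hxy : x ≤ y) : IntervalIntegrable gg volume x y := by
  apply ContinuousOn.intervalIntegrable
  rw [Set.uIcc_of_le hxy]
  intro z hz
  have hz1 : 1 < z := lt_of_lt_of_le hx hz.1
  apply ContinuousAt.continuousWithinAt
  unfold gg
  exact continuousAt_const.div (Real.continuousAt_log (by linarith)) (Real.log_pos hz1).ne'

theorem int_bd {x y : ℝ} (hx : 1 < x) (hxy : x ≤ y) : (y - x) * gg y ≤ ∫ z in x..y, gg z ∧ ∫ z in x..y, gg z ≤ (y - x) * gg x := by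
  have h1 : ∫ _z in x..y, gg y = (y - x) * gg y := by rw [intervalIntegral.integral_const, smul_eq_mul]
  have h2 : ∫ _z in x..y, gg x = (y - x) * gg x := by rw [intervalIntegral.integral_const, smul_eq_mul]
  rw [← h1, ← h2]
  constructor
  · apply intervalIntegral.integral_mono_on hxy (by simp) (gg_int hx hxy)
    intro z hz
    exact gg_anti (lt_of_lt_of_le hx hz.1) hz.2
  · apply intervalIntegral.integral_mono_on hxy (gg_int hx hxy) (by simp)
    intro z hz
    exact gg_anti hx hz.1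

theorem step_bd {s t : ℝ} (hs : 1 < s) (hst : s ≤ t) {ε : ℝ} (hε : 0 < ε) : ∀ᶠ k : ℕ in atTop,
    |k * volume.real (PS k ∩ Set.Ioc s t) - ∫ z in s..t, gg z| ≤ (t - s) * (gg s - gg t) + ε := by
  filter_upwards [upper1 hs hst hε, lower1 hs hst hε] with k h1 h2
  obtain ⟨h3, h4⟩ := int_bd hs hst
  have e1 : (t - s) / Real.log s = (t - s) * gg s := by unfold gg; ring
  have e2 : (t - s) / Real.log t = (t - s) * gg t := by unfold gg; ring
  rw [e1] at h1
  rw [e2] at h2
  have e3 : (t - s) * (gg s - gg t) = (t - s) * gg s - (t - s) * gg t := by ring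
  rw [e3, abs_le]
  constructor <;> linarith

theorem many_bd {u h : ℝ} (hu : 1 < u) (hh : 0 ≤ h) : ∀ n : ℕ, ∀ ε : ℝ, 0 < ε → ∀ᶠ k : ℕ in atTop,
    |k * volume.real (PS k ∩ Set.Ioc u (u + n * h)) - ∫ z in u..(u + n * h), gg z| ≤ h * (gg u - gg (u + n * h)) + ε := by
  intro n
  induction n with
  | zero =>
    intro ε hε
    filter_upwards with k
    simp [hε.le]
  | succ n ih =>
    intro ε hε
    have hn : 0 ≤ (n : ℝ) * h := mul_nonneg (Nat.cast_nonneg _) hh
    have e : u + ((n + 1 : ℕ) : ℝ) * h = (u + n * h) + h := by push_cast; ring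
    have h1 := step_bd (s := u + n * h) (t := u + n * h + h) (by linarith) (by linarith) (ε := ε / 2) (by positivity)
    filter_upwards [ih (ε / 2) (by positivity), h1, eventually_ge_atTop 1] with k h2 h3 h4
    rw [e, vol_split k (by omega) (a := u) (b := u + n * h) (by linarith) (by linarith),
      ← intervalIntegral.integral_add_adjacent_intervals (gg_int hu (show u ≤ u + n * h by linarith))
        (gg_int (show 1 < u + n * h by linarith) (show u + n * h ≤ u + n * h + h by linarith))]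
    have e2 : u + n * h + h - (u + n * h) = h := by ring
    rw [e2] at h3
    rw [abs_le] at h2 h3 ⊢
    constructor <;> nlinarith

/-- the measure of the numbers with a prime value -/
theorem lim1 {u v : ℝ} (hu : 1 < u) (huv : u ≤ v) :
    Tendsto (fun k : ℕ => k * volume.real (PS k ∩ Set.Ioc u v)) atTop (𝓝 (∫ z in u..v, gg z)) := by
  rw [Metric.tendsto_atTop']
  intro ε hε
  have h0 : 0 ≤ (v - u) * (gg u - gg v) := mul_nonneg (by linarith) (by have := gg_anti hu huv; linarith)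
  obtain ⟨N, hN⟩ := exists_nat_gt ((v - u) * (gg u - gg v) / (ε / 2))
  have hN0 : 0 < (N : ℝ) := lt_of_le_of_lt (by positivity) hN
  have h1 := many_bd (h := (v - u) / N) hu (div_nonneg (by linarith) hN0.le) N (ε / 4) (by positivity)
  have e : u + N * ((v - u) / N) = v := by field_simp; ring
  rw [e] at h1
  obtain ⟨K, hK⟩ := eventually_atTop.1 h1
  refine ⟨K, fun k hk => ?_⟩
  rw [Real.dist_eq]
  refine lt_of_le_of_lt (hK k hk.le) ?_
  rw [div_lt_iff₀ (by positivity)] at hN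
  have h2 : (v - u) / N * (gg u - gg v) < ε / 2 := by
    rw [div_mul_eq_mul_div, div_lt_iff₀ hN0]
    linarith
  linarith

theorem pow_diff {p J : ℕ} (hp : 1 ≤ p) (hJ : 1 ≤ J) : (p - 1) ^ J + p ^ (J - 1) ≤ p ^ J ∧ p ^ J ≤ (p - 1) ^ J + J * p ^ (J - 1) := by
  obtain ⟨q, rfl⟩ : ∃ q, p = q + 1 := ⟨p - 1, by omega⟩
  obtain ⟨j, rfl⟩ : ∃ j, J = j + 1 := ⟨J - 1, by omega⟩
  simp only [Nat.add_sub_cancel]
  induction j with
  | zero => simp
  | succ j ih =>
    obtain ⟨h1, h2⟩ := ih (by omega)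
    constructor
    · calc q ^ (j + 1 + 1) + (q + 1) ^ (j + 1) = q * q ^ (j + 1) + (q + 1) ^ (j + 1) := by ring
        _ ≤ q * (q + 1) ^ (j + 1) + (q + 1) ^ (j + 1) := by
          gcongr
          omega
        _ = (q + 1) ^ (j + 1 + 1) := by ring
    · calc (q + 1) ^ (j + 1 + 1) = q * (q + 1) ^ (j + 1) + (q + 1) ^ (j + 1) := by ring
        _ ≤ q * (q ^ (j + 1) + (j + 1) * (q + 1) ^ j) + (q + 1) ^ (j + 1) := by gcongr
        _ = q ^ (j + 1 + 1) + (j + 1) * (q * (q + 1) ^ j) + (q + 1) ^ (j + 1) := by ring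
        _ ≤ q ^ (j + 1 + 1) + (j + 1) * ((q + 1) * (q + 1) ^ j) + (q + 1) ^ (j + 1) := by
          gcongr
          omega
        _ = _ := by ring

theorem W_anti' {k : ℕ} (hk : k ≠ 0) {m : ℕ} (hm : 1 ≤ m) : ∀ n : ℕ, m ≤ n → W k n ≤ W k m := by
  intro n hn
  induction n, hn using Nat.le_induction with
  | base => exact le_rfl
  | succ n hn ih => exact (W_anti hk (by omega)).trans ih

/-- one interval of the first power -/
theorem one_p {C : ℝ} (hC : 1 ≤ C) (hBT : ∀ (a q N : ℕ), 2 ≤ N → (q = 1 ∨ q.Prime) →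
    (((Finset.range N).filter (fun k => (a + k * q).Prime)).card : ℝ) ≤ C * N / Real.log N)
    {k J : ℕ} (hk : k ≠ 0) (hJ : 2 ≤ J) {p : ℕ} (hp : 2 ≤ p) :
    volume.real (PS (k * J) ∩ Set.Ico (rt k (p - 1)) (rt k p)) ≤ C * 2 ^ J * W k p / Real.log p := by
  have hJ0 : J ≠ 0 := by omega
  have hkJ : k * J ≠ 0 := mul_ne_zero hk hJ0
  rw [← rt_power hk hJ0 (p - 1), ← rt_power hk hJ0 p, vol_PS hkJ]
  obtain ⟨d1, d2⟩ := pow_diff (p := p) (J := J) (by omega) (by omega)
  set n0 := (p - 1) ^ J with hn0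
  set L := p ^ J - n0 with hL
  have hn01 : 1 ≤ n0 := Nat.one_le_pow _ _ (by omega)
  have hpJ : p ≤ p ^ (J - 1) := by
    calc p = p ^ 1 := (pow_one p).symm
      _ ≤ p ^ (J - 1) := Nat.pow_le_pow_right (by omega) (by omega)
  have hLp : p ≤ L := by omega
  have hL2 : L ≤ J * p ^ (J - 1) := by omega
  have hp0 : (0 : ℝ) < p := by exact_mod_cast (by omega : 0 < p)
  have hp1 : (1 : ℝ) < p := by exact_mod_cast (by omega : 1 < p)
  have hlogp : 0 < Real.log p := Real.log_pos hp1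
  have hcard : (((Ioc n0 (p ^ J)).filter Nat.Prime).card : ℝ) ≤ C * (J * p ^ (J - 1)) / Real.log p := by
    have h1 := hBT (n0 + 1) 1 L (by omega) (Or.inl rfl)
    have h2 : ((Ioc n0 (p ^ J)).filter Nat.Prime).card = ((Finset.range L).filter (fun k => (n0 + 1 + k * 1).Prime)).card := by
      symm
      apply card_bij (fun k _ => n0 + 1 + k * 1)
      · intro a ha
        rw [mem_filter, mem_range] at ha
        rw [mem_filter, mem_Ioc]
        exact ⟨by omega, ha.2⟩
      · intro a _ b _ h; omega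
      · intro b hb
        rw [mem_filter, mem_Ioc] at hb
        refine ⟨b - (n0 + 1), ?_, by omega⟩
        rw [mem_filter, mem_range]
        refine ⟨by omega, ?_⟩
        have : n0 + 1 + (b - (n0 + 1)) * 1 = b := by omega
        rw [this]; exact hb.2
    rw [h2]
    refine h1.trans ?_
    have h3 : Real.log p ≤ Real.log L := Real.log_le_log hp0 (by exact_mod_cast hLp)
    calc C * L / Real.log L ≤ C * L / Real.log p := div_le_div_of_nonneg_left (by positivity) hlogp h3
      _ ≤ C * (J * p ^ (J - 1)) / Real.log p := by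
          apply div_le_div_of_nonneg_right _ hlogp.le
          apply mul_le_mul_of_nonneg_left _ (by linarith)
          exact_mod_cast hL2
  have hW0 : n0 * W (k * J) (n0 + 1) ≤ rt k (p - 1) / (k * J) := by
    have := W_le hkJ hn01
    rw [hn0, rt_power hk hJ0] at this
    rw [hn0]
    push_cast at this ⊢
    exact this
  have hsum : ∑ q ∈ (Ioc n0 (p ^ J)).filter Nat.Prime, W (k * J) q ≤
      ((Ioc n0 (p ^ J)).filter Nat.Prime).card * W (k * J) (n0 + 1) := by
    rw [← nsmul_eq_mul]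
    apply sum_le_card_nsmul
    intro q hq
    rw [mem_filter, mem_Ioc] at hq
    exact W_anti' hkJ (by omega) q (by omega)
  refine hsum.trans ?_
  have hW1 : 0 ≤ W (k * J) (n0 + 1) := W_nonneg hkJ _
  refine (mul_le_mul_of_nonneg_right hcard hW1).trans ?_
  -- compare with `W k p`
  have hJr : (0 : ℝ) < J := by exact_mod_cast (by omega : 0 < J)
  have hkr : (0 : ℝ) < k := by exact_mod_cast (Nat.pos_of_ne_zero hk)
  have hWp : rt k (p - 1) / k ≤ p * W k p := by
    have h1 := W_ge hk (n := p) (by omega)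
    exact (div_le_div_of_nonneg_right (rt_mono hk (Nat.sub_le _ _)) hkr.le).trans h1
  have hpow : (p : ℝ) ^ J ≤ 2 ^ J * n0 := by
    have : p ^ J ≤ (2 * (p - 1)) ^ J := Nat.pow_le_pow_left (by omega) _
    rw [mul_pow] at this
    exact_mod_cast this
  have hn0r : (0 : ℝ) < n0 := by exact_mod_cast hn01
  have hkey : (J * (p : ℝ) ^ (J - 1)) * W (k * J) (n0 + 1) ≤ 2 ^ J * W k p := by
    have e1 : (J * (p : ℝ) ^ (J - 1)) * W (k * J) (n0 + 1) * (n0 * p) =
        (J * ((p : ℝ) ^ (J - 1) * p)) * (n0 * W (k * J) (n0 + 1)) := by ring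
    have e2 : (p : ℝ) ^ (J - 1) * p = p ^ J := by rw [← pow_succ]; congr 1; omega
    have h1 : (J * (p : ℝ) ^ (J - 1)) * W (k * J) (n0 + 1) * (n0 * p) ≤ 2 ^ J * W k p * (n0 * p) := by
      rw [e1, e2]
      calc (J * (p : ℝ) ^ J) * (n0 * W (k * J) (n0 + 1)) ≤ (J * (p : ℝ) ^ J) * (rt k (p - 1) / (k * J)) :=
            mul_le_mul_of_nonneg_left hW0 (by positivity)
        _ = (p : ℝ) ^ J * (rt k (p - 1) / k) := by field_simp
        _ ≤ (2 ^ J * n0) * (p * W k p) := mul_le_mul hpow hWp (div_nonneg (rt_nonneg _ _) hkr.le) (by positivity)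
        _ = _ := by ring
    exact le_of_mul_le_mul_right h1 (by positivity)
  calc C * (J * (p : ℝ) ^ (J - 1)) / Real.log p * W (k * J) (n0 + 1)
      = C * ((J * (p : ℝ) ^ (J - 1)) * W (k * J) (n0 + 1)) / Real.log p := by ring
    _ ≤ C * (2 ^ J * W k p) / Real.log p := by
        apply div_le_div_of_nonneg_right _ hlogp.le
        exact mul_le_mul_of_nonneg_left hkey (by linarith)
    _ = _ := by ring

theorem pair_lim {u v : ℝ} (hu : 1 < u) (huv : u ≤ v) {J : ℕ} (hJ : 2 ≤ J) :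
    Tendsto (fun k : ℕ => k * volume.real (PS k ∩ PS (k * J) ∩ Set.Ioc u v)) atTop (𝓝 0) := by
  obtain ⟨C, hC, hBT⟩ := Pool.Agent.Helper923.PPS.brun_titchmarsh
  have hL : 0 < Real.log u := Real.log_pos hu
  obtain ⟨u1, hu1, hu1u⟩ : ∃ u1, 1 < u1 ∧ u1 < u := ⟨(1 + u) / 2, by linarith, by linarith⟩
  have hlim := lim1 (u := u1) (v := v + 1) hu1 (by linarith)
  set I := ∫ z in u1..(v + 1), gg z with hI
  have hub := hlim.eventually (gt_mem_nhds (show I < I + 1 by linarith))
  have hI0 : 0 ≤ I := by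
    have := (int_bd hu1 (show u1 ≤ v + 1 by linarith)).1
    refine le_trans (mul_nonneg (by linarith) ?_) this
    exact (one_div_pos.2 (Real.log_pos (by linarith))).le
  have hz : Tendsto (fun k : ℕ => C * 2 ^ J * (I + 1) / Real.log u / (k : ℝ)) atTop (𝓝 0) :=
    tendsto_const_div_atTop_nhds_zero_nat _
  have hu1k : ∀ᶠ k : ℕ in atTop, u / (k : ℝ) < u - u1 :=
    (tendsto_const_div_atTop_nhds_zero_nat u).eventually (gt_mem_nhds (by linarith))
  have hvk : ∀ᶠ k : ℕ in atTop, v / (k : ℝ) < 1 :=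
    (tendsto_const_div_atTop_nhds_zero_nat v).eventually (gt_mem_nhds (by norm_num))
  refine squeeze_zero' (Eventually.of_forall fun k => by positivity) ?_ hz
  filter_upwards [hub, hu1k, hvk, eventually_ge_atTop 1] with k h1 h2 h3 h4
  have hk : k ≠ 0 := by omega
  have hk0 : (0 : ℝ) < k := by exact_mod_cast h4
  obtain ⟨s1, s2, s3⟩ := rt_up hk hu.le
  obtain ⟨t1, t2, t3⟩ := rt_up hk (hu.le.trans huv)
  set A := ⌊u ^ k⌋₊ with hA
  set B := ⌊v ^ k⌋₊ with hB
  have hA1 : 1 ≤ A := Nat.le_floor (by exact_mod_cast one_le_pow₀ hu.le)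
  have hcov : PS k ∩ PS (k * J) ∩ Set.Ioc u v ⊆ ⋃ p ∈ (Ioc A (B + 1)).filter Nat.Prime,
      (PS (k * J) ∩ Set.Ico (rt k (p - 1)) (rt k p)) := by
    rintro b ⟨⟨hb1, hb2⟩, hb3⟩
    have hb4 : b ∈ PS k ∩ Set.Ico (rt k A) (rt k (B + 1)) := ⟨hb1, s1.trans hb3.1.le, lt_of_le_of_lt hb3.2 t2⟩
    rw [PS_inter hk] at hb4
    simp only [Set.mem_iUnion] at hb4 ⊢
    obtain ⟨p, hp, hb5⟩ := hb4
    exact ⟨p, hp, hb2, hb5⟩
  have hfin : volume (⋃ p ∈ (Ioc A (B + 1)).filter Nat.Prime, (PS (k * J) ∩ Set.Ico (rt k (p - 1)) (rt k p))) ≠ ⊤ := by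
    refine ((measure_biUnion_finset_le _ _).trans_lt (ENNReal.sum_lt_top.2 fun p _ => ?_)).ne
    exact (measure_mono Set.inter_subset_right).trans_lt measure_Ico_lt_top
  have h5 : volume.real (PS k ∩ PS (k * J) ∩ Set.Ioc u v) ≤ ∑ p ∈ (Ioc A (B + 1)).filter Nat.Prime,
      C * 2 ^ J * W k p / (k * Real.log u) := by
    refine (measureReal_mono hcov hfin).trans ((measureReal_biUnion_finset_le _ _).trans (sum_le_sum fun p hp => ?_))
    rw [mem_filter, mem_Ioc] at hp
    refine (one_p hC hBT hk hJ hp.2.two_le).trans ?_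
    have hlog : k * Real.log u ≤ Real.log p := by
      rw [← Real.log_pow]
      apply Real.log_le_log (by positivity)
      have h6 : u ^ k < A + 1 := Nat.lt_floor_add_one _
      have h7 : ((A + 1 : ℕ) : ℝ) ≤ p := by exact_mod_cast hp.1.1
      push_cast at h7
      linarith
    exact div_le_div_of_nonneg_left (mul_nonneg (by positivity) (W_nonneg hk _)) (by positivity) hlog
  have h6 : ∑ p ∈ (Ioc A (B + 1)).filter Nat.Prime, W k p ≤ volume.real (PS k ∩ Set.Ioc u1 (v + 1)) := by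
    rw [← vol_PS hk]
    apply vol_mono
    · intro b hb
      have h7 : u / k = u / k := rfl
      exact ⟨by linarith [hb.1], by linarith [hb.2]⟩
    · exact ⟨u1, v + 1, Set.Ioc_subset_Icc_self⟩
  have h7 : volume.real (PS k ∩ Set.Ioc u1 (v + 1)) ≤ (I + 1) / k := by
    rw [le_div_iff₀ hk0]; linarith
  calc (k : ℝ) * volume.real (PS k ∩ PS (k * J) ∩ Set.Ioc u v)
      ≤ k * ∑ p ∈ (Ioc A (B + 1)).filter Nat.Prime, C * 2 ^ J * W k p / (k * Real.log u) :=
        mul_le_mul_of_nonneg_left h5 hk0.le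
    _ = C * 2 ^ J / Real.log u * ∑ p ∈ (Ioc A (B + 1)).filter Nat.Prime, W k p := by
        rw [mul_sum, mul_sum]
        apply sum_congr rfl; intro p _
        field_simp
    _ ≤ C * 2 ^ J / Real.log u * ((I + 1) / k) := mul_le_mul_of_nonneg_left (h6.trans h7) (by positivity)
    _ = _ := by ring

end Pool.Agent.TH690.FM
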