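import Mathlib

/-! Roots of integers and the measure of the reals whose power has a prime integral part plus one. -/

set_option autoImplicit false

namespace Pool.Agent.TH690.FM

open Finset MeasureTheory

/-- the `k`-th root of `n` -/
noncomputable def rt (k n : ℕ) : ℝ := (n : ℝ) ^ ((k : ℝ)⁻¹)

theorem rt_nonneg (k n : ℕ) : 0 ≤ rt k n := Real.rpow_nonneg (Nat.cast_nonneg _) _

theorem rt_pow {k : ℕ} (hk : k ≠ 0) (n : ℕ) : rt k n ^ k = n := Real.rpow_inv_natCast_pow (Nat.cast_nonneg _) hk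

theorem rt_le_iff {k : ℕ} (hk : k ≠ 0) (n : ℕ) {b : ℝ} (hb : 0 ≤ b) : rt k n ≤ b ↔ (n : ℝ) ≤ b ^ k := by
  rw [← pow_le_pow_iff_left₀ (rt_nonneg k n) hb hk, rt_pow hk]

theorem lt_rt_iff {k : ℕ} (hk : k ≠ 0) (n : ℕ) {b : ℝ} (hb : 0 ≤ b) : b < rt k n ↔ b ^ k < (n : ℝ) := by
  rw [← pow_lt_pow_iff_left₀ hb (rt_nonneg k n) hk, rt_pow hk]

theorem rt_mono {k : ℕ} (hk : k ≠ 0) {a b : ℕ} (h : a ≤ b) : rt k a ≤ rt k b := by
  rw [rt_le_iff hk _ (rt_nonneg _ _), rt_pow hk]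
  exact_mod_cast h

theorem rt_power {k J : ℕ} (hk : k ≠ 0) (hJ : J ≠ 0) (n : ℕ) : rt (k * J) (n ^ J) = rt k n := by
  have h1 : rt (k * J) (n ^ J) ^ (k * J) = rt k n ^ (k * J) := by
    rw [rt_pow (mul_ne_zero hk hJ), pow_mul, rt_pow hk]
    push_cast; rfl
  exact (pow_left_inj₀ (rt_nonneg _ _) (rt_nonneg _ _) (mul_ne_zero hk hJ)).1 h1

theorem floor_iff {k : ℕ} (hk : k ≠ 0) {n : ℕ} (hn : 1 ≤ n) {b : ℝ} (hb : 0 ≤ b) :
    ⌊b ^ k⌋₊ + 1 = n ↔ rt k (n - 1) ≤ b ∧ b < rt k n := by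
  rw [rt_le_iff hk _ hb, lt_rt_iff hk _ hb]
  obtain ⟨m, rfl⟩ : ∃ m, n = m + 1 := ⟨n - 1, by omega⟩
  have h0 : 0 ≤ b ^ k := pow_nonneg hb k
  rw [Nat.add_sub_cancel, Nat.add_right_cancel_iff, Nat.floor_eq_iff h0]
  push_cast
  rfl

/-- the difference of consecutive roots -/
noncomputable def W (k n : ℕ) : ℝ := rt k n - rt k (n - 1)

theorem W_nonneg {k : ℕ} (hk : k ≠ 0) (n : ℕ) : 0 ≤ W k n := sub_nonneg.2 (rt_mono hk (Nat.sub_le _ _))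

theorem W_anti {k : ℕ} (hk : k ≠ 0) {n : ℕ} (hn : 1 ≤ n) : W k (n + 1) ≤ W k n := by
  obtain ⟨m, rfl⟩ : ∃ m, n = m + 1 := ⟨n - 1, by omega⟩
  unfold W rt
  have hp0 : (0 : ℝ) ≤ (k : ℝ)⁻¹ := by positivity
  have hp1 : (k : ℝ)⁻¹ ≤ 1 := inv_le_one_of_one_le₀ (by exact_mod_cast Nat.one_le_iff_ne_zero.2 hk)
  have h := (Real.concaveOn_rpow hp0 hp1).2 (Set.mem_Ici.2 (Nat.cast_nonneg m) : (m : ℝ) ∈ Set.Ici (0 : ℝ))
    (Set.mem_Ici.2 (Nat.cast_nonneg (m + 2)) : ((m + 2 : ℕ) : ℝ) ∈ Set.Ici (0 : ℝ))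
    (show (0 : ℝ) ≤ 1 / 2 by norm_num) (show (0 : ℝ) ≤ 1 / 2 by norm_num) (by norm_num)
  simp only [smul_eq_mul] at h
  have e : (1 / 2 : ℝ) * m + 1 / 2 * ((m + 2 : ℕ) : ℝ) = ((m + 1 : ℕ) : ℝ) := by push_cast; ring
  rw [e] at h
  have e1 : m + 1 + 1 - 1 = m + 1 := by omega
  have e2 : m + 1 - 1 = m := by omega
  rw [e1, e2]
  have e3 : ((m + 1 + 1 : ℕ) : ℝ) = ((m + 2 : ℕ) : ℝ) := by push_cast; ring
  rw [e3]
  linarith

theorem W_le {k : ℕ} (hk : k ≠ 0) {n : ℕ} (hn : 1 ≤ n) : n * W k (n + 1) ≤ rt k n / k := by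
  unfold W rt
  have hp0 : (0 : ℝ) ≤ (k : ℝ)⁻¹ := by positivity
  have hp1 : (k : ℝ)⁻¹ ≤ 1 := inv_le_one_of_one_le₀ (by exact_mod_cast Nat.one_le_iff_ne_zero.2 hk)
  have hn0 : (0 : ℝ) < n := by exact_mod_cast hn
  rw [Nat.add_sub_cancel]
  have e : ((n + 1 : ℕ) : ℝ) = n * (1 + 1 / n) := by push_cast; field_simp
  rw [e, Real.mul_rpow hn0.le (by positivity)]
  have hb := rpow_one_add_le_one_add_mul_self (s := 1 / (n : ℝ)) (by
    have : (0 : ℝ) ≤ 1 / n := by positivity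
    linarith) hp0 hp1
  have h2 : 0 ≤ (n : ℝ) ^ ((k : ℝ)⁻¹) := Real.rpow_nonneg hn0.le _
  calc (n : ℝ) * ((n : ℝ) ^ ((k : ℝ)⁻¹) * (1 + 1 / n) ^ ((k : ℝ)⁻¹) - (n : ℝ) ^ ((k : ℝ)⁻¹))
      ≤ n * ((n : ℝ) ^ ((k : ℝ)⁻¹) * (1 + (k : ℝ)⁻¹ * (1 / n)) - (n : ℝ) ^ ((k : ℝ)⁻¹)) := by
        apply mul_le_mul_of_nonneg_left _ hn0.le
        linarith [mul_le_mul_of_nonneg_left hb h2]
    _ = _ := by field_simp; ring

theorem W_ge {k : ℕ} (hk : k ≠ 0) {n : ℕ} (hn : 1 ≤ n) : rt k n / k ≤ n * W k n := by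
  unfold W rt
  have hp0 : (0 : ℝ) ≤ (k : ℝ)⁻¹ := by positivity
  have hp1 : (k : ℝ)⁻¹ ≤ 1 := inv_le_one_of_one_le₀ (by exact_mod_cast Nat.one_le_iff_ne_zero.2 hk)
  have hn0 : (0 : ℝ) < n := by exact_mod_cast hn
  have hn1 : (1 : ℝ) ≤ n := by exact_mod_cast hn
  have e : ((n - 1 : ℕ) : ℝ) = n * (1 + (-(1 / n))) := by rw [Nat.cast_sub hn]; push_cast; field_simp; ring
  have hs : -1 ≤ -(1 / (n : ℝ)) := by
    rw [neg_le_neg_iff, div_le_one hn0]; exact hn1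
  rw [e, Real.mul_rpow hn0.le (by linarith)]
  have hb := rpow_one_add_le_one_add_mul_self hs hp0 hp1
  have h2 : 0 ≤ (n : ℝ) ^ ((k : ℝ)⁻¹) := Real.rpow_nonneg hn0.le _
  calc (n : ℝ) ^ ((k : ℝ)⁻¹) / k = n * ((n : ℝ) ^ ((k : ℝ)⁻¹) - (n : ℝ) ^ ((k : ℝ)⁻¹) * (1 + (k : ℝ)⁻¹ * -(1 / n))) := by
        field_simp; ring
    _ ≤ _ := by
        apply mul_le_mul_of_nonneg_left _ hn0.le
        linarith [mul_le_mul_of_nonneg_left hb h2]

/-- the reals with a prime value -/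
def PS (k : ℕ) : Set ℝ := {b | 0 ≤ b ∧ (⌊b ^ k⌋₊ + 1).Prime}

theorem PS_inter {k : ℕ} (hk : k ≠ 0) (A B : ℕ) : PS k ∩ Set.Ico (rt k A) (rt k B) =
    ⋃ n ∈ (Ioc A B).filter Nat.Prime, Set.Ico (rt k (n - 1)) (rt k n) := by
  ext b
  simp only [Set.mem_inter_iff, Set.mem_iUnion, mem_filter, mem_Ioc, exists_prop, PS, Set.mem_ofPred_eq, Set.mem_Ico]
  constructor
  · rintro ⟨⟨h0, hp⟩, h1, h2⟩
    refine ⟨⌊b ^ k⌋₊ + 1, ⟨⟨?_, ?_⟩, hp⟩, (floor_iff hk (by omega) h0).1 rfl⟩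
    · rw [rt_le_iff hk _ h0] at h1
      have := Nat.le_floor h1
      omega
    · rw [lt_rt_iff hk _ h0] at h2
      have := (Nat.floor_lt (pow_nonneg h0 k)).2 h2
      omega
  · rintro ⟨n, ⟨⟨h1, h2⟩, hp⟩, h3, h4⟩
    have h0 : 0 ≤ b := (rt_nonneg _ _).trans h3
    refine ⟨⟨h0, ?_⟩, (rt_mono hk (by omega)).trans h3, lt_of_lt_of_le h4 (rt_mono hk h2)⟩
    rw [(floor_iff hk (by omega) h0).2 ⟨h3, h4⟩]
    exact hp

theorem PS_meas {k : ℕ} (hk : k ≠ 0) : MeasurableSet (PS k) := by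
  have h : PS k = ⋃ n ∈ {n : ℕ | n.Prime}, Set.Ico (rt k (n - 1)) (rt k n) := by
    ext b
    simp only [Set.mem_iUnion, exists_prop, PS, Set.mem_ofPred_eq, Set.mem_Ico]
    constructor
    · rintro ⟨h0, hp⟩
      exact ⟨_, hp, (floor_iff hk (by omega) h0).1 rfl⟩
    · rintro ⟨n, hp, h3, h4⟩
      have h0 : 0 ≤ b := (rt_nonneg _ _).trans h3
      refine ⟨h0, ?_⟩
      rw [(floor_iff hk hp.one_le h0).2 ⟨h3, h4⟩]
      exact hp
  rw [h]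
  exact MeasurableSet.biUnion (Set.to_countable _) fun n _ => measurableSet_Ico

theorem vol_PS {k : ℕ} (hk : k ≠ 0) (A B : ℕ) : volume.real (PS k ∩ Set.Ico (rt k A) (rt k B)) =
    ∑ n ∈ (Ioc A B).filter Nat.Prime, W k n := by
  rw [PS_inter hk, measureReal_biUnion_finset (h := fun n _ => (measure_Ico_lt_top).ne)]
  · apply sum_congr rfl; intro n _
    rw [Real.volume_real_Ico_of_le (rt_mono hk (Nat.sub_le _ _))]
    rfl
  · intro n hn m hm hnm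
    rw [mem_coe, mem_filter] at hn hm
    show Disjoint (Set.Ico (rt k (n - 1)) (rt k n)) (Set.Ico (rt k (m - 1)) (rt k m))
    rw [Set.disjoint_left]
    intro b hb hb'
    have h0 : 0 ≤ b := (rt_nonneg _ _).trans hb.1
    have e1 := (floor_iff hk hn.2.one_le h0).2 hb
    have e2 := (floor_iff hk hm.2.one_le h0).2 hb'
    exact hnm (e1.symm.trans e2)
  · intro n _; exact measurableSet_Ico

/-- partial summation -/
theorem abel {H w : ℕ → ℝ} {A : ℕ} (hw : ∀ n, A + 1 ≤ n → w (n + 1) ≤ w n) : ∀ B : ℕ, A + 1 ≤ B →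
    (∀ n, A + 1 ≤ n → n < B → 0 ≤ H n) →
    H B * w B - H A * w (A + 1) ≤ ∑ n ∈ Ioc A B, (H n - H (n - 1)) * w n := by
  intro B hB
  induction B, hB using Nat.le_induction with
  | base =>
    intro _
    have : Ioc A (A + 1) = {A + 1} := by ext x; simp only [mem_Ioc, mem_singleton]; omega
    rw [this, sum_singleton, Nat.add_sub_cancel]
    linarith
  | succ B hB ih =>
    intro h
    have h1 := ih fun n h1 h2 => h n h1 (by omega)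
    have e : Ioc A (B + 1) = insert (B + 1) (Ioc A B) := by ext x; simp only [mem_insert, mem_Ioc]; omega
    rw [e, sum_insert (by simp), Nat.add_sub_cancel]
    have h2 := mul_le_mul_of_nonneg_left (hw B hB) (h B hB (by omega))
    nlinarith

end Pool.Agent.TH690.FM
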