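import Pool.Agent.TH690.FM.A
import Pool.Agent.H357R2.SI.Common

/-! The measure of the reals with a prime value: asymptotics. -/

set_option autoImplicit false

namespace Pool.Agent.TH690.FM

open Finset MeasureTheory Filter Topology

theorem sumW (k A : ℕ) : ∀ B : ℕ, A ≤ B → ∑ n ∈ Ioc A B, W k n = rt k B - rt k A := by
  intro B hB
  induction B, hB using Nat.le_induction with
  | base => simp
  | succ B hB ih =>
    have e : Ioc A (B + 1) = insert (B + 1) (Ioc A B) := by ext x; simp only [mem_insert, mem_Ioc]; omega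
    rw [e, sum_insert (by simp), ih]
    unfold W
    rw [Nat.add_sub_cancel]; ring

theorem pi_step {n : ℕ} (hn : 1 ≤ n) : (Nat.primeCounting n : ℝ) - Nat.primeCounting (n - 1) = if n.Prime then 1 else 0 := by
  obtain ⟨m, rfl⟩ : ∃ m, n = m + 1 := ⟨n - 1, by omega⟩
  rw [Nat.add_sub_cancel, Nat.primeCounting, Nat.primeCounting, Nat.primeCounting', Nat.count_succ]
  push_cast
  split_ifs <;> simp

theorem upper0 {k : ℕ} (hk : k ≠ 0) {A B : ℕ} (hA : 1 ≤ A) (hAB : A ≤ B) {c : ℝ} (hc : 0 ≤ c)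
    (h : ∀ n, A ≤ n → n ≤ B → (Nat.primeCounting n : ℝ) ≤ c * n) :
    ∑ n ∈ (Ioc A B).filter Nat.Prime, W k n ≤ c * (rt k B - rt k A) + c * (rt k A / k) := by
  have h0 : 0 ≤ rt k A / k := div_nonneg (rt_nonneg _ _) (Nat.cast_nonneg _)
  rcases hAB.eq_or_lt with rfl | hlt
  · simp; positivity
  have h1 := abel (H := fun n => c * n - Nat.primeCounting n) (w := W k) (A := A) (fun n hn => W_anti hk (by omega)) B hlt
    (fun n h1 h2 => by have := h n (by omega) h2.le; linarith)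
  have h2 : ∑ n ∈ Ioc A B, ((c * (n : ℝ) - Nat.primeCounting n) - (c * ((n - 1 : ℕ) : ℝ) - Nat.primeCounting (n - 1))) * W k n =
      c * (rt k B - rt k A) - ∑ n ∈ (Ioc A B).filter Nat.Prime, W k n := by
    rw [← sumW k A B hAB, mul_sum, sum_filter, ← sum_sub_distrib]
    apply sum_congr rfl; intro n hn
    rw [mem_Ioc] at hn
    have h3 := pi_step (n := n) (by omega)
    have h4 : ((n - 1 : ℕ) : ℝ) = n - 1 := by rw [Nat.cast_sub (by omega)]; simp
    rw [h4]
    have h5 : (c * (n : ℝ) - Nat.primeCounting n) - (c * ((n : ℝ) - 1) - Nat.primeCounting (n - 1)) =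
      c - ((Nat.primeCounting n : ℝ) - Nat.primeCounting (n - 1)) := by ring
    rw [h5, h3]
    split_ifs <;> ring
  rw [h2] at h1
  have h3 : 0 ≤ (c * B - Nat.primeCounting B) * W k B := mul_nonneg (by have := h B hAB le_rfl; linarith) (W_nonneg hk _)
  have h4 : (c * A - Nat.primeCounting A) * W k (A + 1) ≤ c * (rt k A / k) := by
    calc (c * A - Nat.primeCounting A) * W k (A + 1) ≤ (c * A) * W k (A + 1) :=
          mul_le_mul_of_nonneg_right (by linarith [Nat.cast_nonneg (α := ℝ) (Nat.primeCounting A)]) (W_nonneg hk _)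
      _ = c * (A * W k (A + 1)) := by ring
      _ ≤ _ := mul_le_mul_of_nonneg_left (W_le hk hA) hc
  linarith

theorem lower0 {k : ℕ} (hk : k ≠ 0) {A B : ℕ} (hA : 1 ≤ A) {c c' : ℝ} (hc : 0 ≤ c) (hc' : 0 ≤ c')
    (hcA : (Nat.primeCounting A : ℝ) ≤ c * A) (h : ∀ n, A + 1 ≤ n → n ≤ B → c' * n ≤ (Nat.primeCounting n : ℝ)) :
    c' * (rt k B - rt k A) - c * (rt k A / k) ≤ ∑ n ∈ (Ioc A B).filter Nat.Prime, W k n := by
  have h0 : 0 ≤ rt k A / k := div_nonneg (rt_nonneg _ _) (Nat.cast_nonneg _)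
  have hs : 0 ≤ ∑ n ∈ (Ioc A B).filter Nat.Prime, W k n := sum_nonneg fun n _ => W_nonneg hk n
  rcases le_or_gt B A with hle | hlt
  · have h1 := rt_mono hk hle
    have h2 : c' * (rt k B - rt k A) ≤ 0 := mul_nonpos_of_nonneg_of_nonpos hc' (by linarith)
    have h3 : 0 ≤ c * (rt k A / k) := mul_nonneg hc h0
    linarith
  have h1 := abel (H := fun n => (Nat.primeCounting n : ℝ) - c' * n) (w := W k) (A := A) (fun n hn => W_anti hk (by omega)) B hlt
    (fun n h1 h2 => by have := h n h1 h2.le; linarith)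
  have h2 : ∑ n ∈ Ioc A B, (((Nat.primeCounting n : ℝ) - c' * n) - ((Nat.primeCounting (n - 1) : ℝ) - c' * ((n - 1 : ℕ) : ℝ))) * W k n =
      ∑ n ∈ (Ioc A B).filter Nat.Prime, W k n - c' * (rt k B - rt k A) := by
    rw [← sumW k A B hlt.le, mul_sum, sum_filter, ← sum_sub_distrib]
    apply sum_congr rfl; intro n hn
    rw [mem_Ioc] at hn
    have h3 := pi_step (n := n) (by omega)
    have h4 : ((n - 1 : ℕ) : ℝ) = n - 1 := by rw [Nat.cast_sub (by omega)]; simp
    rw [h4]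
    have h5 : ((Nat.primeCounting n : ℝ) - c' * n) - ((Nat.primeCounting (n - 1) : ℝ) - c' * ((n : ℝ) - 1)) =
      ((Nat.primeCounting n : ℝ) - Nat.primeCounting (n - 1)) - c' := by ring
    rw [h5, h3]
    split_ifs <;> ring
  rw [h2] at h1
  have h3 : 0 ≤ ((Nat.primeCounting B : ℝ) - c' * B) * W k B := mul_nonneg (by have := h B hlt le_rfl; linarith) (W_nonneg hk _)
  have h4 : ((Nat.primeCounting A : ℝ) - c' * A) * W k (A + 1) ≤ c * (rt k A / k) := by
    calc ((Nat.primeCounting A : ℝ) - c' * A) * W k (A + 1) ≤ (c * A) * W k (A + 1) :=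
          mul_le_mul_of_nonneg_right (by have := mul_nonneg hc' (Nat.cast_nonneg (α := ℝ) A); linarith) (W_nonneg hk _)
      _ = c * (A * W k (A + 1)) := by ring
      _ ≤ _ := mul_le_mul_of_nonneg_left (W_le hk hA) hc
  linarith

/-- the comparison sequence -/
theorem lim_aux {L : ℝ} (hL : 0 < L) (a b d : ℝ) :
    Tendsto (fun k : ℕ => a * (k / (k * L - d)) + b / (k * L - d)) atTop (𝓝 (a / L)) := by
  have h1 : Tendsto (fun k : ℕ => (k : ℝ)) atTop atTop := tendsto_natCast_atTop_atTop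
  have h2 : Tendsto (fun k : ℕ => (k : ℝ) * L - d) atTop atTop :=
    tendsto_atTop_add_const_right _ _ (h1.atTop_mul_const hL)
  have h3 : Tendsto (fun k : ℕ => b / ((k : ℝ) * L - d)) atTop (𝓝 0) := h2.const_div_atTop b
  have h4 : Tendsto (fun k : ℕ => (k : ℝ) / (k * L - d)) atTop (𝓝 (1 / L)) := by
    have h5 : Tendsto (fun k : ℕ => 1 / L + (d / L) / ((k : ℝ) * L - d)) atTop (𝓝 (1 / L + 0)) :=
      tendsto_const_nhds.add (h2.const_div_atTop (d / L))
    rw [add_zero] at h5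
    refine h5.congr' ?_
    filter_upwards [h2.eventually_gt_atTop 0] with k hk
    have hne : (k : ℝ) * L - d ≠ 0 := hk.ne'
    rw [div_add_div _ _ hL.ne' hne, div_eq_div_iff (mul_ne_zero hL.ne' hne) hne]
    field_simp
    ring
  have h6 := (h4.const_mul a).add h3
  have e : a * (1 / L) + 0 = a / L := by ring
  rw [e] at h6
  exact h6

theorem log_floor {s : ℝ} {k : ℕ} (h : 2 ≤ s ^ k) (hs : 0 < s) : k * Real.log s - Real.log 2 ≤ Real.log ⌊s ^ k⌋₊ := by
  have h1 : s ^ k / 2 ≤ ⌊s ^ k⌋₊ := by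
    have := Nat.lt_floor_add_one (s ^ k)
    linarith
  have h2 := Real.log_le_log (by positivity) h1
  rw [Real.log_div (by positivity) (by norm_num), Real.log_pow] at h2
  exact h2

theorem rt_up {k : ℕ} (hk : k ≠ 0) {t : ℝ} (ht : 1 ≤ t) : rt k ⌊t ^ k⌋₊ ≤ t ∧ t < rt k (⌊t ^ k⌋₊ + 1) ∧
    rt k (⌊t ^ k⌋₊ + 1) - rt k ⌊t ^ k⌋₊ ≤ t / k := by
  have h0 : 0 ≤ t := by linarith
  have h1 : rt k ⌊t ^ k⌋₊ ≤ t := (rt_le_iff hk _ h0).2 (Nat.floor_le (by positivity))
  refine ⟨h1, (lt_rt_iff hk _ h0).2 (by exact_mod_cast Nat.lt_floor_add_one _), ?_⟩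
  have hn : 1 ≤ ⌊t ^ k⌋₊ := Nat.le_floor (by exact_mod_cast one_le_pow₀ ht)
  have h2 := W_le hk hn
  have h3 : W k (⌊t ^ k⌋₊ + 1) ≤ ⌊t ^ k⌋₊ * W k (⌊t ^ k⌋₊ + 1) :=
    le_mul_of_one_le_left (W_nonneg hk _) (by exact_mod_cast hn)
  have h4 : rt k ⌊t ^ k⌋₊ / k ≤ t / k := div_le_div_of_nonneg_right h1 (Nat.cast_nonneg _)
  have h5 : W k (⌊t ^ k⌋₊ + 1) = rt k (⌊t ^ k⌋₊ + 1) - rt k ⌊t ^ k⌋₊ := by unfold W; rw [Nat.add_sub_cancel]
  linarith

theorem vol_mono {k : ℕ} {S T : Set ℝ} (h : S ⊆ T) (hT : ∃ a b, T ⊆ Set.Icc a b) :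
    volume.real (PS k ∩ S) ≤ volume.real (PS k ∩ T) := by
  obtain ⟨a, b, hT⟩ := hT
  exact measureReal_mono (Set.inter_subset_inter_right _ h)
    ((measure_mono ((Set.inter_subset_right).trans hT)).trans_lt (measure_Icc_lt_top)).ne

theorem upper1 {s t : ℝ} (hs : 1 < s) (hst : s ≤ t) {ε : ℝ} (hε : 0 < ε) :
    ∀ᶠ k : ℕ in atTop, k * volume.real (PS k ∩ Set.Ioc s t) ≤ (t - s) / Real.log s + ε := by
  have hL : 0 < Real.log s := Real.log_pos hs
  obtain ⟨δ, hδ, hδ2⟩ : ∃ δ : ℝ, 0 < δ ∧ δ * ((t - s) / Real.log s) ≤ ε / 2 := by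
    refine ⟨ε / 2 / ((t - s) / Real.log s + 1), by
      have : 0 ≤ (t - s) / Real.log s := div_nonneg (by linarith) hL.le
      positivity, ?_⟩
    have : 0 ≤ (t - s) / Real.log s := div_nonneg (by linarith) hL.le
    rw [div_mul_eq_mul_div, div_le_iff₀ (by positivity)]
    nlinarith
  obtain ⟨X0, hX3, hX⟩ := Pool.Agent.H357R2.SI.pnt δ hδ
  have hlim := lim_aux hL ((1 + δ) * (t - s)) ((1 + δ) * (2 * t + s)) (Real.log 2)
  have hlt : (1 + δ) * (t - s) / Real.log s < (t - s) / Real.log s + ε := by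
    have : (1 + δ) * (t - s) / Real.log s = (t - s) / Real.log s + δ * ((t - s) / Real.log s) := by ring
    linarith
  have hpow : Tendsto (fun k : ℕ => s ^ k) atTop atTop := tendsto_pow_atTop_atTop_of_one_lt hs
  filter_upwards [hlim.eventually (gt_mem_nhds hlt), hpow.eventually_ge_atTop ((X0 : ℝ) + 3), eventually_ge_atTop 1] with k h1 h2 h3
  have hk : k ≠ 0 := by omega
  have hk0 : (0 : ℝ) < k := by exact_mod_cast h3
  have hX0 : (0 : ℝ) ≤ X0 := Nat.cast_nonneg _
  set A := ⌊s ^ k⌋₊ with hA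
  set B := ⌊t ^ k⌋₊ with hB
  have hAX : X0 + 3 ≤ A := Nat.le_floor (by push_cast; exact h2)
  have hAB : A ≤ B := Nat.floor_le_floor (pow_le_pow_left₀ (by linarith) hst k)
  have hlogA : k * Real.log s - Real.log 2 ≤ Real.log A := log_floor (by linarith) (by linarith)
  have hpos : 0 < k * Real.log s - Real.log 2 := by
    have h4 : Real.log 2 < Real.log (s ^ k) := Real.log_lt_log (by norm_num) (by linarith)
    rw [Real.log_pow] at h4
    linarith
  obtain ⟨s1, s2, s3⟩ := rt_up hk hs.le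
  obtain ⟨t1, t2, t3⟩ := rt_up hk (hs.le.trans hst)
  set c : ℝ := (1 + δ) / (k * Real.log s - Real.log 2) with hc
  have hc0 : 0 < c := by positivity
  have hsub : Set.Ioc s t ⊆ Set.Ico (rt k A) (rt k (B + 1)) := fun b hb => ⟨s1.trans hb.1.le, lt_of_le_of_lt hb.2 t2⟩
  have h4 := vol_mono (k := k) hsub ⟨rt k A, rt k (B + 1), Set.Ico_subset_Icc_self⟩
  rw [vol_PS hk] at h4
  have h5 := upper0 hk (A := A) (B := B + 1) (by omega) (by omega) hc0.le (by
    intro n hn1 hn2
    obtain ⟨-, h6⟩ := hX n (by omega)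
    refine h6.trans ?_
    have hlogn : k * Real.log s - Real.log 2 ≤ Real.log n := hlogA.trans (Real.log_le_log (by
      exact_mod_cast (by omega : 0 < A)) (by exact_mod_cast hn1))
    have h7 : (n : ℝ) / Real.log n ≤ n / (k * Real.log s - Real.log 2) :=
      div_le_div_of_nonneg_left (Nat.cast_nonneg _) hpos hlogn
    calc (1 + δ) * (n : ℝ) / Real.log n = (n : ℝ) / Real.log n * (1 + δ) := by ring
      _ ≤ n / (k * Real.log s - Real.log 2) * (1 + δ) :=
          mul_le_mul_of_nonneg_right h7 (by linarith)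
      _ = _ := by rw [hc]; ring)
  have h6 : rt k (B + 1) - rt k A ≤ t - s + 2 * t / k := by
    have h8 : s / k ≤ t / k := div_le_div_of_nonneg_right hst hk0.le
    have h9 : 2 * t / k = t / k + t / k := by ring
    rw [h9]
    linarith
  have h7 : rt k A / k ≤ s / k := div_le_div_of_nonneg_right s1 hk0.le
  refine le_trans ?_ h1.le
  calc (k : ℝ) * volume.real (PS k ∩ Set.Ioc s t) ≤ k * (c * (t - s + 2 * t / k) + c * (s / k)) := by
        apply mul_le_mul_of_nonneg_left _ hk0.le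
        refine h4.trans (h5.trans ?_)
        exact add_le_add (mul_le_mul_of_nonneg_left h6 hc0.le) (mul_le_mul_of_nonneg_left h7 hc0.le)
    _ = _ := by rw [hc]; field_simp; ring

theorem lower1 {s t : ℝ} (hs : 1 < s) (hst : s ≤ t) {ε : ℝ} (hε : 0 < ε) :
    ∀ᶠ k : ℕ in atTop, (t - s) / Real.log t - ε ≤ k * volume.real (PS k ∩ Set.Ioc s t) := by
  have hL : 0 < Real.log s := Real.log_pos hs
  have ht1 : 1 < t := lt_of_lt_of_le hs hst
  have hLt : 0 < Real.log t := Real.log_pos ht1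
  obtain ⟨δ, hδ, hδ1, hδ2⟩ : ∃ δ : ℝ, 0 < δ ∧ δ ≤ 1 ∧ δ * ((t - s) / Real.log t) ≤ ε / 2 := by
    have h0 : 0 ≤ (t - s) / Real.log t := div_nonneg (by linarith) hLt.le
    refine ⟨min 1 (ε / 2 / ((t - s) / Real.log t + 1)), lt_min one_pos (by positivity), min_le_left _ _, ?_⟩
    refine (mul_le_mul_of_nonneg_right (min_le_right _ _) h0).trans ?_
    rw [div_mul_eq_mul_div, div_le_iff₀ (by positivity)]
    nlinarith
  obtain ⟨X0, hX3, hX⟩ := Pool.Agent.H357R2.SI.pnt δ hδ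
  have hlim := lim_aux hL 0 ((1 + δ) * (2 * t) + 2 * t) (Real.log 2)
  have hlim2 : Tendsto (fun k : ℕ => (1 - δ) / Real.log t * (2 * t) / (k : ℝ)) atTop (𝓝 0) :=
    tendsto_const_div_atTop_nhds_zero_nat _
  rw [zero_div] at hlim
  have hpow : Tendsto (fun k : ℕ => s ^ k) atTop atTop := tendsto_pow_atTop_atTop_of_one_lt hs
  filter_upwards [hlim.eventually (gt_mem_nhds (show (0 : ℝ) < ε / 4 by positivity)),
    hlim2.eventually (gt_mem_nhds (show (0 : ℝ) < ε / 4 by positivity)),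
    hpow.eventually_ge_atTop ((X0 : ℝ) + 3), eventually_ge_atTop 1] with k h1 h1' h2 h3
  have hk : k ≠ 0 := by omega
  have hk0 : (0 : ℝ) < k := by exact_mod_cast h3
  have hk1 : (1 : ℝ) ≤ k := by exact_mod_cast h3
  have hX0 : (0 : ℝ) ≤ X0 := Nat.cast_nonneg _
  set A := ⌊s ^ k⌋₊ with hA
  set B := ⌊t ^ k⌋₊ with hB
  have hAX : X0 + 3 ≤ A := Nat.le_floor (by push_cast; exact h2)
  have hAB : A ≤ B := Nat.floor_le_floor (pow_le_pow_left₀ (by linarith) hst k)
  have hlogA : k * Real.log s - Real.log 2 ≤ Real.log A := log_floor (by linarith) (by linarith)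
  have hpos : 0 < k * Real.log s - Real.log 2 := by
    have h4 : Real.log 2 < Real.log (s ^ k) := Real.log_lt_log (by norm_num) (by linarith)
    rw [Real.log_pow] at h4
    linarith
  obtain ⟨s1, s2, s3⟩ := rt_up hk hs.le
  obtain ⟨t1, t2, t3⟩ := rt_up hk (hs.le.trans hst)
  set c : ℝ := (1 + δ) / (k * Real.log s - Real.log 2) with hc
  have hc0 : 0 < c := by positivity
  set c' : ℝ := (1 - δ) / (k * Real.log t) with hc'
  have hc'0 : 0 ≤ c' := div_nonneg (by linarith) (by positivity)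
  have hsub : Set.Ico (rt k (A + 1)) (rt k B) ⊆ Set.Ioc s t := fun b hb => ⟨lt_of_lt_of_le s2 hb.1, hb.2.le.trans t1⟩
  have h4 := vol_mono (k := k) hsub ⟨s, t, Set.Ioc_subset_Icc_self⟩
  rw [vol_PS hk] at h4
  have hB0 : (0 : ℝ) < B := by exact_mod_cast (by omega : 0 < B)
  have h5 := lower0 hk (A := A + 1) (B := B) (by omega) hc0.le hc'0 (by
      obtain ⟨-, h6⟩ := hX (A + 1) (by omega)
      refine h6.trans ?_
      have hlogn : k * Real.log s - Real.log 2 ≤ Real.log ((A + 1 : ℕ) : ℝ) := hlogA.trans (Real.log_le_log (by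
        exact_mod_cast (by omega : 0 < A)) (by push_cast; linarith))
      have h7 : ((A + 1 : ℕ) : ℝ) / Real.log ((A + 1 : ℕ) : ℝ) ≤ ((A + 1 : ℕ) : ℝ) / (k * Real.log s - Real.log 2) :=
        div_le_div_of_nonneg_left (Nat.cast_nonneg _) hpos hlogn
      calc (1 + δ) * ((A + 1 : ℕ) : ℝ) / Real.log ((A + 1 : ℕ) : ℝ) = (1 + δ) * (((A + 1 : ℕ) : ℝ) / Real.log ((A + 1 : ℕ) : ℝ)) := by ring
        _ ≤ (1 + δ) * (((A + 1 : ℕ) : ℝ) / (k * Real.log s - Real.log 2)) := mul_le_mul_of_nonneg_left h7 (by linarith)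
        _ = _ := by rw [hc]; ring) (by
      intro n hn1 hn2
      obtain ⟨h6, -⟩ := hX n (by omega)
      refine le_trans ?_ h6
      have hn0 : (1 : ℝ) < n := by exact_mod_cast (by omega : 1 < n)
      have hlogn : Real.log n ≤ k * Real.log t := by
        rw [← Real.log_pow]
        apply Real.log_le_log (by linarith)
        calc (n : ℝ) ≤ B := by exact_mod_cast hn2
          _ ≤ t ^ k := Nat.floor_le (by positivity)
      have h7 : (n : ℝ) / (k * Real.log t) ≤ n / Real.log n :=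
        div_le_div_of_nonneg_left (Nat.cast_nonneg _) (Real.log_pos hn0) hlogn
      calc c' * n = (1 - δ) * ((n : ℝ) / (k * Real.log t)) := by rw [hc']; ring
        _ ≤ (1 - δ) * (n / Real.log n) := mul_le_mul_of_nonneg_left h7 (by linarith)
        _ = _ := by ring)
  have hsk : s / k ≤ t / k := div_le_div_of_nonneg_right hst hk0.le
  have h6 : t - s - 2 * t / k ≤ rt k B - rt k (A + 1) := by
    have h9 : 2 * t / k = t / k + t / k := by ring
    rw [h9]
    linarith
  have h7 : rt k (A + 1) / k ≤ 2 * t / k := by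
    apply div_le_div_of_nonneg_right _ hk0.le
    have : s / k ≤ s := div_le_self (by linarith) hk1
    linarith
  have h8 : (t - s) / Real.log t - ε ≤ k * (c' * (t - s - 2 * t / k) - c * (2 * t / k)) := by
    have e1 : k * (c' * (t - s - 2 * t / k) - c * (2 * t / k)) = (1 - δ) * ((t - s) / Real.log t) -
        (1 - δ) / Real.log t * (2 * t) / k - (1 + δ) * (2 * t) / (k * Real.log s - Real.log 2) := by
      rw [hc, hc']; field_simp
    rw [e1]
    have e2 : (1 + δ) * (2 * t) / (k * Real.log s - Real.log 2) ≤ 0 * (k / (k * Real.log s - Real.log 2)) +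
        ((1 + δ) * (2 * t) + 2 * t) / (k * Real.log s - Real.log 2) := by
      rw [zero_mul, zero_add]
      apply div_le_div_of_nonneg_right _ hpos.le
      linarith
    linarith
  refine h8.trans (mul_le_mul_of_nonneg_left ?_ hk0.le)
  refine le_trans ?_ (h5.trans h4)
  exact sub_le_sub (mul_le_mul_of_nonneg_left h6 hc'0) (mul_le_mul_of_nonneg_left h7 hc0.le)

end Pool.Agent.TH690.FM
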